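import Pool.Agent.Q214.DX.TYPa

/-!
# Job DX-TYP (project DX of helper269): typical polynomials
-/

set_option autoImplicit false
set_option linter.all false

open scoped Classical
open Finset Polynomial Filter Topology

namespace Pool.Agent.Q214.DX

open Pool.Agent.H341R2.Sharp (Mon mem_Mon Irr mem_Irr)
open Pool.Agent.Y164.PS (Sf mem_Sf pf mem_pf sm cb cb_pos tend_log2 asy2)
open Pool.Agent.Y164.HG (ty nontyp asy1 asy3 asy4 et et_le et_nonneg dQ)
open Pool.Agent.Q269.DX (tyx S_TYP)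

section

variable {k : Type} [Field k] [Fintype k] [DecidableEq k]

theorem few_parity (hk : ringChar k ≠ 2) (hq : 4 ≤ Fintype.card k) (n z : ℕ) (hz : 2 ≤ z) (b : ZMod 2) {M : ℝ} (hM0 : 0 < M)
    (hM : M ≤ 1 / 4 * (Real.log ((((n / 2 - 1) / 2 + 2 : ℕ)) : ℝ) - 1 - Real.log z)) {t : ℕ} (ht : (t : ℝ) ≤ M / 2) :
    (((Sf k n).filter fun D => ((pf D).filter fun P => z ≤ P.natDegree ∧ ((P.natDegree : ℕ) : ZMod 2) = b).card < t).card : ℝ) ≤
      4 / M * (Fintype.card k : ℝ) ^ n := by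
  obtain ⟨PP, hPP⟩ : ∃ PP, PP = (Irr k (n / 2)).filter (fun P => z ≤ P.natDegree ∧ ((P.natDegree : ℕ) : ZMod 2) = b) := ⟨_, rfl⟩
  obtain ⟨M', hM'⟩ : ∃ M', M' = ∑ P ∈ PP, ((Fintype.card k : ℝ) ^ P.natDegree)⁻¹ := ⟨_, rfl⟩
  have h1 : M ≤ M' := by
    rw [hM', hPP]
    exact hM.trans (low_sum hk hq (n / 2) z hz b)
  have hM0' : 0 < M' := by linarith
  have h2 := cheb hk n PP (fun P hP => by
    rw [hPP, mem_filter, mem_Irr] at hP
    exact ⟨hP.1.1, hP.1.2.1, by omega⟩) hM' hM0'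
  have hq0 : (0 : ℝ) ≤ (Fintype.card k : ℝ) ^ n := by positivity
  have h3 : 4 / M' * (Fintype.card k : ℝ) ^ n ≤ 4 / M * (Fintype.card k : ℝ) ^ n := by
    apply mul_le_mul_of_nonneg_right _ hq0
    exact div_le_div_of_nonneg_left (by norm_num) hM0 h1
  refine le_trans ?_ (h2.trans h3)
  have h4 : ((Sf k n).filter fun D => ((pf D).filter fun P => z ≤ P.natDegree ∧ ((P.natDegree : ℕ) : ZMod 2) = b).card < t) ⊆
      ((Mon k n).filter fun D => ((PP.filter fun P => P ∣ D).card : ℝ) ≤ M' / 2) := by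
    intro D hD
    rw [mem_filter] at hD ⊢
    obtain ⟨hD1, hD2⟩ := hD
    rw [mem_Sf] at hD1
    refine ⟨mem_Mon.2 ⟨hD1.1, hD1.2.1⟩, ?_⟩
    have h5 : (PP.filter fun P => P ∣ D).card ≤ ((pf D).filter fun P => z ≤ P.natDegree ∧ ((P.natDegree : ℕ) : ZMod 2) = b).card := by
      apply card_le_card
      intro P hP
      rw [mem_filter, hPP, mem_filter, mem_Irr] at hP
      rw [mem_filter, mem_pf hD1.1.ne_zero]
      exact ⟨⟨hP.1.1.1, hP.1.1.2.1, hP.2⟩, hP.1.2⟩
    have h6 : ((PP.filter fun P => P ∣ D).card : ℝ) ≤ t := by exact_mod_cast (h5.trans hD2.le)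
    linarith
  exact_mod_cast card_le_card h4

end

theorem t_TYP : S_TYP := by
  intro k _ _ _ hk hq τ _ Q R C δ hC hδ
  obtain ⟨A, hA⟩ := exists_nat_gt (12 / δ)
  have hAp : (0 : ℝ) < A := lt_trans (by positivity) hA
  obtain ⟨c, hcd⟩ : ∃ c, c = 32 * R + 1 := ⟨_, rfl⟩
  have hc1 : 1 ≤ c := by omega
  obtain ⟨B, hB⟩ : ∃ B, B = (A + Fintype.card τ) ^ 2 := ⟨_, rfl⟩
  refine ⟨A, ?_⟩
  have h1 := tend_log2.eventually (asy1 c hc1 C 1 one_pos)
  have h2 := tend_log2.eventually (asy2 ((2 * (5 * (2 + dQ Q) + 2 + 2 * (2 + Fintype.card τ))) * C) 1 one_pos)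
  have h3 := tend_log2.eventually (asy3 c hc1 (2 * B + 3) (by omega) (δ / 8) (by positivity))
  have h4 := tend_log2.eventually (asy1 2 (by norm_num) 1 (δ / 8) (by positivity))
  have h5 := tend_log2.eventually (asy3 1 le_rfl (2 * B + 3) (by omega) (1 / 64) (by positivity))
  have h6 := tend_log2.eventually_ge_atTop (max c 16)
  obtain ⟨l0, hl0⟩ := exists_nat_gt (512 / δ)
  have h7 := tend_log2.eventually_ge_atTop l0
  filter_upwards [h1, h2, h3, h4, h5, h6, h7, eventually_ge_atTop 1] with n e1 e2 e3 e4 e5 e6 e7 e8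
  obtain ⟨l, hl⟩ : ∃ l, l = Nat.log 2 n := ⟨_, rfl⟩
  rw [← hl] at e1 e2 e3 e4 e5 e6 e7
  have hl1 : 2 ^ l ≤ n := by rw [hl]; exact Nat.pow_log_le_self 2 (by omega)
  have hl2 : n < 2 ^ (l + 1) := by rw [hl]; exact Nat.lt_pow_succ_log_self (by norm_num) n
  have hcl : c ≤ l := (le_max_left _ _).trans e6
  have hl16 : 16 ≤ l := (le_max_right _ _).trans e6
  have hlr : (16 : ℝ) ≤ l := by exact_mod_cast hl16
  obtain ⟨s, hs⟩ : ∃ s, s = l / c := ⟨_, rfl⟩
  obtain ⟨z, hz⟩ : ∃ z, z = (2 * (B * l) + 3) * l := ⟨_, rfl⟩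
  have hs1 : 1 ≤ s := by rw [hs]; exact (Nat.one_le_div_iff (by omega)).2 hcl
  have hz2 : 2 ≤ z := by
    rw [hz]
    have : 3 * 1 ≤ (2 * (B * l) + 3) * l := Nat.mul_le_mul (by omega) (by omega)
    omega
  refine ⟨l, s, z, hs1, hz2, by rw [hs]; exact e1, ?_, ?_⟩
  · intro m hm
    have g1 := et_le (Q := Q) (A := B * l) (w := 2) (by norm_num) hl2
    rw [← hz] at g1
    have g2 : (m + Fintype.card τ) ^ 2 ≤ B * l * l := by
      have : m + Fintype.card τ ≤ (A + Fintype.card τ) * l := by nlinarith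
      calc (m + Fintype.card τ) ^ 2 ≤ ((A + Fintype.card τ) * l) ^ 2 := Nat.pow_le_pow_left this 2
        _ = _ := by rw [hB]; ring
    have g3 : (2 : ℝ) ^ ((m + Fintype.card τ) ^ 2) ≤ 2 ^ (B * l * l) := pow_le_pow_right₀ (by norm_num) g2
    have g4 := et_nonneg (Q := Q) n z
    calc et Q n z * (C * 2 ^ ((m + Fintype.card τ) ^ 2)) ≤ et Q n z * (C * 2 ^ (B * l * l)) :=
          mul_le_mul_of_nonneg_left (mul_le_mul_of_nonneg_left g3 hC) g4
      _ = et Q n z * ((2 : ℕ) : ℝ) ^ (B * l * l) * C := by push_cast; ring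
      _ ≤ (2 * (5 * (2 + dQ Q) + 2 + 2 * (2 + Fintype.card τ))) * (1 / 2) ^ l * C := mul_le_mul_of_nonneg_right g1 hC
      _ = (2 * (5 * (2 + dQ Q) + 2 + 2 * (2 + Fintype.card τ))) * C * (1 / 2) ^ l := by ring
      _ ≤ 1 := e2
  · -- the logarithms
    have hn0 : (0 : ℝ) < n := by exact_mod_cast e8
    have hzr : (0 : ℝ) < z := by exact_mod_cast (by omega : 0 < z)
    have hlog2 : (0.69 : ℝ) ≤ Real.log 2 := by have := Real.log_two_gt_d9; linarith
    have hlog2' : Real.log 2 ≤ (0.7 : ℝ) := by have := Real.log_two_lt_d9; linarith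
    have hlogn1 : 0.69 * (l : ℝ) ≤ Real.log n := by
      have : Real.log (2 ^ l) ≤ Real.log n := Real.log_le_log (by positivity) (by exact_mod_cast hl1)
      rw [Real.log_pow] at this
      nlinarith
    have hlogn2 : Real.log n ≤ l + 1 := by
      have : Real.log n ≤ Real.log (2 ^ (l + 1)) := Real.log_le_log hn0 (by exact_mod_cast hl2.le)
      rw [Real.log_pow] at this
      push_cast at this
      nlinarith
    obtain ⟨y, hy⟩ : ∃ y : ℝ, y = Real.log (((2 * B + 3) * l : ℕ) : ℝ) := ⟨_, rfl⟩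
    rw [← hy] at e3 e5
    have hlogz : Real.log z ≤ 2 * y := by
      have g1 : (z : ℝ) ≤ ((((2 * B + 3) * l : ℕ)) : ℝ) ^ 2 := by
        have : z ≤ ((2 * B + 3) * l) ^ 2 := by
          rw [hz]
          have f1 : (2 * (B * l) + 3) * l ≤ (2 * B + 3) * l * l := by nlinarith
          have f2 : (2 * B + 3) * l * l ≤ ((2 * B + 3) * l) ^ 2 := by
            rw [pow_two]
            exact Nat.mul_le_mul_left _ (Nat.le_mul_of_pos_left _ (by omega))
          exact f1.trans f2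
        exact_mod_cast this
      have g2 := Real.log_le_log hzr g1
      rw [Real.log_pow, ← hy] at g2
      exact_mod_cast g2
    have hy5 : 1 + y ≤ (l + 1) / 64 := by
      rw [Nat.div_one, div_le_iff₀ (by positivity)] at e5
      linarith
    -- many, many small
    have f1 := nontyp (k := k) hk n 0 A l s z
    have f2 : (1 + Real.log n) / ((A * l : ℕ) + 1) ≤ δ / 4 := by
      rw [div_le_iff₀ (by positivity)]
      have g1 : 12 < A * δ := by rwa [div_lt_iff₀ hδ] at hA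
      push_cast
      nlinarith
    have f3 : (1 + Real.log z) / (s + 1) ≤ δ / 4 := by
      rw [← hs, div_le_iff₀ (by positivity)] at e3
      rw [div_le_iff₀ (by positivity)]
      linarith
    have f4 : (2 : ℝ) ^ (0 * s) * cb n ≤ δ / 8 := by
      have g1 := asy4 (R := 0) (n := n) (l := l) (s := l / 2) hl1 (by omega)
      rw [zero_mul, pow_zero] at g1 ⊢
      rw [one_mul] at g1 e4 ⊢
      exact g1.trans e4
    -- few of one parity
    obtain ⟨M, hM⟩ : ∃ M : ℝ, M = l / 16 := ⟨_, rfl⟩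
    have hM0 : 0 < M := by rw [hM]; positivity
    have hM1 : M ≤ 1 / 4 * (Real.log ((((n / 2 - 1) / 2 + 2 : ℕ)) : ℝ) - 1 - Real.log z) := by
      have g1 : (n : ℝ) / 4 ≤ ((((n / 2 - 1) / 2 + 2 : ℕ)) : ℝ) := by
        rw [div_le_iff₀ (by norm_num)]
        have : n ≤ ((n / 2 - 1) / 2 + 2) * 4 := by omega
        exact_mod_cast this
      have g2 := Real.log_le_log (by positivity) g1
      rw [Real.log_div hn0.ne' (by norm_num), show (4 : ℝ) = 2 ^ 2 by norm_num, Real.log_pow] at g2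
      rw [hM]
      push_cast at g2 ⊢
      linarith
    have hM2 : ((R * s : ℕ) : ℝ) ≤ M / 2 := by
      have g1 : 32 * (R * s) ≤ l := by
        have : c * s ≤ l := by rw [hs]; exact Nat.mul_div_le l c
        rw [hcd] at this
        nlinarith
      have g2 : (32 : ℝ) * ((R * s : ℕ) : ℝ) ≤ l := by exact_mod_cast g1
      rw [hM]
      linarith
    have f5 : 4 / M ≤ δ / 8 := by
      have g1 : 512 < l * δ := by
        have : (512 : ℝ) / δ < l := lt_of_lt_of_le hl0 (by exact_mod_cast e7)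
        rwa [div_lt_iff₀ hδ] at this
      rw [div_le_iff₀ hM0, hM]
      linarith
    have f6 : ∀ b : ZMod 2, (((Sf k n).filter fun D => ((pf D).filter fun P => z ≤ P.natDegree ∧ ((P.natDegree : ℕ) : ZMod 2) = b).card < R * s).card : ℝ) ≤
        δ / 8 * (Fintype.card k : ℝ) ^ n := fun b =>
      (few_parity hk hq n z hz2 b hM0 hM1 hM2).trans (mul_le_mul_of_nonneg_right f5 (by positivity))
    have f7 : (Sf k n).filter (fun D => ¬ tyx R A l s z D) ⊆ ((Sf k n).filter fun D => ¬ ty 0 A l s z D) ∪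
        (((Sf k n).filter fun D => ((pf D).filter fun P => z ≤ P.natDegree ∧ ((P.natDegree : ℕ) : ZMod 2) = 0).card < R * s) ∪
        ((Sf k n).filter fun D => ((pf D).filter fun P => z ≤ P.natDegree ∧ ((P.natDegree : ℕ) : ZMod 2) = 1).card < R * s)) := by
      intro D hD
      rw [mem_filter, tyx] at hD
      rw [mem_union, mem_union, mem_filter, mem_filter, mem_filter, ty]
      by_contra hcon
      push Not at hcon
      obtain ⟨a1, a2, a3⟩ := hcon
      have b1 := a1 hD.1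
      have b2 := a2 hD.1
      have b3 := a3 hD.1
      refine hD.2 ⟨b1.2.1, b1.2.2, fun b => ?_⟩
      have hb : ∀ b : ZMod 2, b = 0 ∨ b = 1 := by decide
      rcases hb b with rfl | rfl
      · exact b2
      · exact b3
    have f8 : (((Sf k n).filter fun D => ¬ tyx R A l s z D).card : ℝ) ≤ (((Sf k n).filter fun D => ¬ ty 0 A l s z D).card : ℝ) +
        ((((Sf k n).filter fun D => ((pf D).filter fun P => z ≤ P.natDegree ∧ ((P.natDegree : ℕ) : ZMod 2) = 0).card < R * s).card : ℝ) +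
        (((Sf k n).filter fun D => ((pf D).filter fun P => z ≤ P.natDegree ∧ ((P.natDegree : ℕ) : ZMod 2) = 1).card < R * s).card : ℝ)) := by
      have := (card_le_card f7).trans ((card_union_le _ _).trans (Nat.add_le_add_left (card_union_le _ _) _))
      exact_mod_cast this
    have f9 := f6 0
    have f10 := f6 1
    have hqn : (0 : ℝ) ≤ (Fintype.card k : ℝ) ^ n := by positivity
    have f11 : (((Sf k n).filter fun D => ¬ ty 0 A l s z D).card : ℝ) ≤ (Fintype.card k : ℝ) ^ n * (δ / 4 + δ / 4 + δ / 8) :=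
      f1.trans (mul_le_mul_of_nonneg_left (by linarith) hqn)
    have f12 : 0 ≤ δ * (Fintype.card k : ℝ) ^ n := by positivity
    nlinarith

end Pool.Agent.Q214.DX
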