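import Pool.Agent.Q269.DX.St
import Pool.Agent.Y164.HG.Asy

/-!
# Job DX-TYP (project DX of helper269): Chebyshev's inequality for prime factors, and a lower bound for the mean
-/

set_option autoImplicit false
set_option linter.all false

open scoped Classical
open Finset Polynomial Filter Topology

namespace Pool.Agent.Q214.DX

open Pool.Agent.H341R2.Sharp (Mon mem_Mon Irr mem_Irr)
open Pool.Agent.Y164.PS (coprime_of_not_dvd Pr mem_Pr card_Pr_ge Sf mem_Sf pf mem_pf sm card_Mon_dvd)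

variable {k : Type} [Field k] [Fintype k] [DecidableEq k]

theorem card_Mon (hk : ringChar k ≠ 2) (n : ℕ) : ((Mon k n).card : ℝ) = (Fintype.card k : ℝ) ^ n := by
  have h := card_Mon_dvd hk (monic_one (R := k)) n
  rw [filter_true_of_mem fun D _ => one_dvd D, natDegree_one, if_pos (Nat.zero_le _), Nat.sub_zero] at h
  exact_mod_cast h

/-- one prime -/
theorem sum_one (hk : ringChar k ≠ 2) {n : ℕ} {P : k[X]} (hP : P.Monic) (hn : P.natDegree ≤ n) :
    ∑ D ∈ Mon k n, (if P ∣ D then (1 : ℝ) else 0) = (Fintype.card k : ℝ) ^ n * ((Fintype.card k : ℝ) ^ P.natDegree)⁻¹ := by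
  have hq : (0 : ℝ) < Fintype.card k := by exact_mod_cast (Fintype.card_pos (α := k))
  have h := card_Mon_dvd hk hP n
  rw [if_pos hn] at h
  rw [← sum_filter, sum_const, nsmul_eq_mul, mul_one, h]
  push_cast
  rw [pow_sub₀ _ hq.ne' hn]

/-- two primes -/
theorem sum_pair (hk : ringChar k ≠ 2) {n : ℕ} {P P' : k[X]} (hP : P.Monic ∧ Irreducible P ∧ 2 * P.natDegree ≤ n)
    (hP' : P'.Monic ∧ Irreducible P' ∧ 2 * P'.natDegree ≤ n) (hne : P ≠ P') :
    ∑ D ∈ Mon k n, (if P ∣ D then (1 : ℝ) else 0) * (if P' ∣ D then 1 else 0) =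
      (Fintype.card k : ℝ) ^ n * (((Fintype.card k : ℝ) ^ P.natDegree)⁻¹ * ((Fintype.card k : ℝ) ^ P'.natDegree)⁻¹) := by
  have hcop : IsCoprime P P' := by
    apply coprime_of_not_dvd hP'.2.1
    intro hd
    exact hne (eq_of_monic_of_associated hP'.1 hP.1 (hP'.2.1.associated_of_dvd hP.2.1 hd)).symm
  have h1 : ∀ D ∈ Mon k n, (if P ∣ D then (1 : ℝ) else 0) * (if P' ∣ D then 1 else 0) = if P * P' ∣ D then 1 else 0 := by
    intro D _
    by_cases h2 : P ∣ D
    · by_cases h3 : P' ∣ D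
      · rw [if_pos h2, if_pos h3, if_pos (hcop.mul_dvd h2 h3), mul_one]
      · rw [if_neg h3, if_neg (fun h => h3 ((dvd_mul_left P' P).trans h)), mul_zero]
    · rw [if_neg h2, if_neg (fun h => h2 ((dvd_mul_right P P').trans h)), zero_mul]
  rw [sum_congr rfl h1]
  have hdeg : (P * P').natDegree = P.natDegree + P'.natDegree := hP.1.natDegree_mul hP'.1
  rw [sum_one hk (hP.1.mul hP'.1) (by rw [hdeg]; omega), hdeg, pow_add, mul_inv]

/-- **Chebyshev's inequality.** -/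
theorem cheb (hk : ringChar k ≠ 2) (n : ℕ) (PP : Finset k[X])
    (hPP : ∀ P ∈ PP, P.Monic ∧ Irreducible P ∧ 2 * P.natDegree ≤ n) {M : ℝ}
    (hM : M = ∑ P ∈ PP, ((Fintype.card k : ℝ) ^ P.natDegree)⁻¹) (hM0 : 0 < M) :
    (((Mon k n).filter fun D => ((PP.filter fun P => P ∣ D).card : ℝ) ≤ M / 2).card : ℝ) ≤ 4 / M * (Fintype.card k : ℝ) ^ n := by
  set q : ℝ := (Fintype.card k : ℝ) with hq
  obtain ⟨X, hX⟩ : ∃ X : k[X] → ℝ, X = fun D => ∑ P ∈ PP, (if P ∣ D then (1 : ℝ) else 0) := ⟨_, rfl⟩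
  have hX1 : ∀ D, ((PP.filter fun P => P ∣ D).card : ℝ) = X D := by
    intro D
    rw [hX]
    dsimp only
    rw [← sum_filter, sum_const, nsmul_eq_mul, mul_one]
  have s0 : ((Mon k n).card : ℝ) = q ^ n := card_Mon hk n
  have s1 : ∑ D ∈ Mon k n, X D = q ^ n * M := by
    rw [hX, sum_comm, hM, mul_sum]
    refine sum_congr rfl fun P hP => ?_
    have := hPP P hP
    exact sum_one hk this.1 (by omega)
  have s2 : ∑ D ∈ Mon k n, X D ^ 2 ≤ q ^ n * (M ^ 2 + M) := by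
    have e1 : ∀ D, X D ^ 2 = ∑ P ∈ PP, ∑ P' ∈ PP, (if P ∣ D then (1 : ℝ) else 0) * (if P' ∣ D then 1 else 0) := by
      intro D
      rw [hX, pow_two]
      dsimp only
      rw [sum_mul_sum]
    rw [sum_congr rfl fun D _ => e1 D, sum_comm]
    have e2 : q ^ n * (M ^ 2 + M) = ∑ P ∈ PP, ((∑ P' ∈ PP, q ^ n * ((q ^ P.natDegree)⁻¹ * (q ^ P'.natDegree)⁻¹)) + q ^ n * (q ^ P.natDegree)⁻¹) := by
      rw [sum_add_distrib, ← mul_sum, ← hM, mul_add, pow_two]
      congr 1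
      rw [hM, sum_mul_sum, mul_sum]
      exact sum_congr rfl fun P _ => by rw [mul_sum]
    rw [e2]
    refine sum_le_sum fun P hP => ?_
    rw [sum_comm]
    have e3 : ∀ P' ∈ PP, ∑ D ∈ Mon k n, (if P ∣ D then (1 : ℝ) else 0) * (if P' ∣ D then 1 else 0) ≤
        q ^ n * ((q ^ P.natDegree)⁻¹ * (q ^ P'.natDegree)⁻¹) + if P' = P then q ^ n * (q ^ P.natDegree)⁻¹ else 0 := by
      intro P' hP'
      by_cases h : P' = P
      · subst h
        rw [if_pos rfl]
        have h1 : ∀ D ∈ Mon k n, (if P' ∣ D then (1 : ℝ) else 0) * (if P' ∣ D then 1 else 0) = if P' ∣ D then 1 else 0 := by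
          intro D _
          split_ifs <;> norm_num
        rw [sum_congr rfl h1, sum_one hk (hPP P' hP').1 (by have := hPP P' hP'; omega)]
        have : 0 ≤ q ^ n * ((q ^ P'.natDegree)⁻¹ * (q ^ P'.natDegree)⁻¹) := by positivity
        linarith
      · rw [if_neg h, add_zero]
        exact (sum_pair hk (hPP P hP) (hPP P' hP') (Ne.symm h)).le
    refine (sum_le_sum e3).trans (le_of_eq ?_)
    rw [sum_add_distrib, sum_ite_eq' PP P, if_pos hP]
  have var : ∑ D ∈ Mon k n, (X D - M) ^ 2 ≤ q ^ n * M := by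
    have e1 : ∑ D ∈ Mon k n, (X D - M) ^ 2 = ∑ D ∈ Mon k n, X D ^ 2 - 2 * M * ∑ D ∈ Mon k n, X D + M ^ 2 * (Mon k n).card := by
      have : ∀ D ∈ Mon k n, (X D - M) ^ 2 = X D ^ 2 - 2 * M * X D + M ^ 2 := fun D _ => by ring
      rw [sum_congr rfl this, sum_add_distrib, sum_sub_distrib, ← mul_sum, sum_const, nsmul_eq_mul]
      ring
    rw [e1, s1, s0]
    nlinarith
  have h1 : (((Mon k n).filter fun D => ((PP.filter fun P => P ∣ D).card : ℝ) ≤ M / 2).card : ℝ) * (M / 2) ^ 2 ≤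
      ∑ D ∈ Mon k n, (X D - M) ^ 2 := by
    rw [← nsmul_eq_mul, ← sum_const]
    refine (sum_le_sum (g := fun D => (X D - M) ^ 2) fun D hD => ?_).trans
      (sum_le_sum_of_subset_of_nonneg (filter_subset _ _) fun D _ _ => sq_nonneg _)
    have h2 := (mem_filter.1 hD).2
    rw [hX1] at h2
    nlinarith
  have h2 := h1.trans var
  rw [div_mul_eq_mul_div, le_div_iff₀ hM0]
  nlinarith

/-- a lower bound for the mean -/
theorem low_sum (hk : ringChar k ≠ 2) (hq : 4 ≤ Fintype.card k) (N z : ℕ) (hz : 2 ≤ z) (b : ZMod 2) :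
    1 / 4 * (Real.log ((((N - 1) / 2 + 2 : ℕ)) : ℝ) - 1 - Real.log z) ≤
      ∑ P ∈ (Irr k N).filter (fun P => z ≤ P.natDegree ∧ ((P.natDegree : ℕ) : ZMod 2) = b), ((Fintype.card k : ℝ) ^ P.natDegree)⁻¹ := by
  set q : ℝ := (Fintype.card k : ℝ) with hqd
  have hq4 : (4 : ℝ) ≤ q := by rw [hqd]; exact_mod_cast hq
  obtain ⟨J, hJ⟩ : ∃ J, J = (N - 1) / 2 := ⟨_, rfl⟩
  have hb : b.val < 2 := ZMod.val_lt b
  have h1 : ∑ j ∈ Icc z J, ∑ P ∈ Pr k (2 * j + b.val), (q ^ P.natDegree)⁻¹ ≤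
      ∑ P ∈ (Irr k N).filter (fun P => z ≤ P.natDegree ∧ ((P.natDegree : ℕ) : ZMod 2) = b), (q ^ P.natDegree)⁻¹ := by
    rw [← sum_biUnion]
    · apply sum_le_sum_of_subset_of_nonneg
      · intro P hP
        rw [mem_biUnion] at hP
        obtain ⟨j, hj, hP⟩ := hP
        rw [mem_Icc] at hj
        rw [mem_Pr] at hP
        rw [mem_filter, mem_Irr, hP.2.2]
        refine ⟨⟨hP.1, hP.2.1, by omega⟩, by omega, ?_⟩
        push_cast
        rw [show (2 : ZMod 2) = 0 from rfl, zero_mul, zero_add, ZMod.natCast_zmod_val]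
      · intro _ _ _
        positivity
    · intro i _ j _ hne
      rw [Function.onFun, disjoint_left]
      intro P hP hP'
      rw [mem_Pr] at hP hP'
      have := hP.2.2.symm.trans hP'.2.2
      omega
  refine le_trans ?_ h1
  have h2 : ∀ j ∈ Icc z J, 1 / 4 * (((j + 1 : ℕ) : ℝ))⁻¹ ≤ ∑ P ∈ Pr k (2 * j + b.val), (q ^ P.natDegree)⁻¹ := by
    intro j hj
    rw [mem_Icc] at hj
    obtain ⟨d, hd⟩ : ∃ d, d = 2 * j + b.val := ⟨_, rfl⟩
    rw [← hd]
    have hd2 : 2 ≤ d := by omega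
    have hd0 : (0 : ℝ) < d := by exact_mod_cast (by omega : 0 < d)
    rw [sum_congr rfl (fun P hP => by rw [(mem_Pr.1 hP).2.2]), sum_const, nsmul_eq_mul]
    have h3 := card_Pr_ge (k := k) hk d (by omega)
    rw [← hqd] at h3
    have hs : (2 : ℝ) ≤ Real.sqrt q := by
      rw [show (2 : ℝ) = Real.sqrt 4 by rw [show (4 : ℝ) = 2 ^ 2 by norm_num, Real.sqrt_sq (by norm_num)]]
      exact Real.sqrt_le_sqrt hq4
    have hs2 : (4 : ℝ) ≤ Real.sqrt q ^ d := by
      calc (4 : ℝ) = 2 ^ 2 := by norm_num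
        _ ≤ 2 ^ d := pow_le_pow_right₀ (by norm_num) hd2
        _ ≤ _ := pow_le_pow_left₀ (by norm_num) hs d
    have hqs : q ^ d = Real.sqrt q ^ d * Real.sqrt q ^ d := by
      rw [← mul_pow, Real.mul_self_sqrt (by linarith)]
    have hqd0 : 0 < q ^ d := by positivity
    have h4 : q ^ d / 2 ≤ d * (Pr k d).card := by
      refine le_trans ?_ h3
      rw [hqs]
      nlinarith
    have h5 : (d : ℝ) ≤ 2 * ((j + 1 : ℕ) : ℝ) := by
      have : d ≤ 2 * (j + 1) := by omega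
      exact_mod_cast this
    have hj0 : (0 : ℝ) < ((j + 1 : ℕ) : ℝ) := by positivity
    have h6 : q ^ d / 2 ≤ 2 * ((j + 1 : ℕ) : ℝ) * (Pr k d).card :=
      h4.trans (mul_le_mul_of_nonneg_right h5 (Nat.cast_nonneg _))
    rw [← div_eq_mul_inv, ← div_eq_mul_inv, div_le_div_iff₀ hj0 hqd0]
    linarith
  refine le_trans ?_ (sum_le_sum h2)
  rw [← mul_sum, ← hJ]
  apply mul_le_mul_of_nonneg_left _ (by norm_num)
  have h3 : ((harmonic (J + 1) : ℚ) : ℝ) ≤ ((harmonic z : ℚ) : ℝ) + ∑ j ∈ Icc z J, (((j + 1 : ℕ) : ℝ))⁻¹ := by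
    have e : ∀ m : ℕ, ((harmonic m : ℚ) : ℝ) = ∑ j ∈ range m, (((j + 1 : ℕ) : ℝ))⁻¹ := by
      intro m
      rw [harmonic]
      push_cast
      rfl
    rw [e, e]
    have h4 : range (J + 1) ⊆ range z ∪ Icc z J := by
      intro j hj
      rw [mem_union, mem_range, mem_Icc]
      rw [mem_range] at hj
      omega
    have h5 : Disjoint (range z) (Icc z J) := by
      rw [disjoint_left]
      intro j hj hj'
      rw [mem_range] at hj
      rw [mem_Icc] at hj'
      omega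
    rw [← sum_union h5]
    exact sum_le_sum_of_subset_of_nonneg h4 fun _ _ _ => by positivity
  have h4 := log_add_one_le_harmonic (J + 1)
  have h5 := harmonic_le_one_add_log z
  have h6 : (((J + 1 + 1 : ℕ)) : ℝ) = (((J + 2 : ℕ)) : ℝ) := by push_cast; ring
  rw [h6] at h4
  linarith

end Pool.Agent.Q214.DX
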